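import Pool.Agent.H52.RtMain

/-!
A separable Banach space whose unit ball is not a uniformly continuous retract of the unit ball of
its bidual. The definitions are in `Pool.Agent.H52.RtDefs`.
-/

namespace Pool.Agent.Results.MP_68e57a_an.SeparableNonRetract

open Pool.Agent.BallRetract

/-- Over `ℝ` and over `ℂ` (every `RCLike` field) there is a separable Banach space `X`, which is
the closed linear span of a norm compact set, such that no map `f : X** → X` which is uniformly
continuous on the closed unit ball of `X**` is the identity on the closed unit ball of `X`. -/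
theorem result : ∀ (𝕜 : Type) [RCLike 𝕜],
    ∃ (X : Type) (_ : NormedAddCommGroup X) (_ : NormedSpace 𝕜 X),
      CompleteSpace X ∧ TopologicalSpace.SeparableSpace X ∧ IsCompactlyGenerated 𝕜 X ∧
      ¬ ∃ f : StrongDual 𝕜 (StrongDual 𝕜 X) → X, IsUCRetraction 𝕜 X f :=
  fun 𝕜 _ => Pool.Agent.H52.Rt.exists_separable 𝕜

end Pool.Agent.Results.MP_68e57a_an.SeparableNonRetract
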